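import Mathlib

/-! The shift and one-sided radii. -/

set_option autoImplicit false

namespace Pool.Agent.MP_88e1ca_an.Min

/-- The left shift. -/
def shift {A : Type} (x : ℤ → A) : ℤ → A := fun i => x (i + 1)

/-- On `X`, the symbol `f x i` depends only on `x i, …, x (i + r)`. -/
def HasRadius {A : Type} (X : Set (ℤ → A)) (f : (ℤ → A) → ℤ → A) (r : ℕ) : Prop :=
  ∀ x ∈ X, ∀ y ∈ X, ∀ i : ℤ, (∀ j : ℤ, i ≤ j → j ≤ i + r → x j = y j) → f x i = f y i

end Pool.Agent.MP_88e1ca_an.Min
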