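import Pool.Agent.MP_88e1ca_an.Min.A
import Pool.Agent.MP_88e1ca_an.Min.Defs

/-! From a Toeplitz diagram to a minimal subshift with a one-sided automorphism. -/

set_option autoImplicit false

open Set Filter Topology

namespace Pool.Agent.MP_88e1ca_an.Min

variable {A : Type} [TopologicalSpace A] [DiscreteTopology A]

theorem agree_nhds (x : ℤ → A) (L : ℕ) : ∀ᶠ z in 𝓝 x, ∀ i : ℤ, -(L : ℤ) ≤ i → i ≤ L → z i = x i := by
  filter_upwards [(eventually_all_finset (Finset.Icc (-(L : ℤ)) L)).2 fun i _ =>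
    (continuous_apply i).continuousAt.eventually ((isOpen_discrete {x i}).mem_nhds rfl)]
    with z h i h1 h2 using h i (Finset.mem_Icc.2 ⟨h1, h2⟩)

theorem HasRadius.cont {X : Set (ℤ → A)} {f : (ℤ → A) → ℤ → A} {r : ℕ} (h : HasRadius X f r) :
    ContinuousOn f X := continuousOn_pi.2 fun i x hx => by
  refine tendsto_const_nhds.congr' ?_
  filter_upwards [nhdsWithin_le_nhds (agree_nhds x (i.natAbs + r)), self_mem_nhdsWithin] with z a b
  exact h x hx z b i fun j h1 h2 => (a j (by omega) (by omega)).symm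

theorem build (y : ℤ × ℤ → A) (ρ : ℤ → ℕ)
    (ha : ∀ s a t b u : ℤ, (∀ i, 0 ≤ i → i ≤ (ρ s : ℤ) → y (a + i, t) = y (b + i, u)) →
      y (a, t + s) = y (b, u + s))
    (hb : ∀ (L : ℕ) (s : ℤ), ∃ m, ∀ i : ℤ, -(L : ℤ) ≤ i → i ≤ L → y (i + m, 0) = y (i, s))
    (hc : ∀ L : ℕ, ∃ N : ℤ, 0 < N ∧ ∀ m i : ℤ, -(L : ℤ) ≤ i → i ≤ L → y (i + m * N, 0) = y (i, 0))
    (hd : ∀ n : ℕ, (∀ a t, y (a, t + n) = y (a, t)) → n = 0) :
    ∃ (X : Set (ℤ → A)) (f g : (ℤ → A) → ℤ → A), X.Nonempty ∧ IsClosed X ∧ shift '' X = X ∧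
      (∀ Z ⊆ X, Z.Nonempty → IsClosed Z → MapsTo shift Z Z → Z = X) ∧
      (∃ x ∈ X, ∀ i : ℤ, ∃ N : ℤ, 0 < N ∧ ∀ m : ℤ, x (i + m * N) = x i) ∧
      MapsTo f X X ∧ MapsTo g X X ∧ InvOn g f X X ∧ ContinuousOn f X ∧ ContinuousOn g X ∧
      (∀ x ∈ X, f (shift x) = shift (f x)) ∧ (∃ r, HasRadius X f r) ∧ (∃ r, HasRadius X g r) ∧
      (∀ n : ℕ, 1 ≤ n → ∃ x ∈ X, f^[n] x ≠ x) ∧ ∀ n : ℕ, HasRadius X f^[n] (ρ n) := by
  classical
  obtain ⟨F, F1, F2⟩ : ∃ F : ℤ → (ℤ → A) → ℤ → A, (∀ s x, F s (shift x) = shift (F s x)) ∧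
      ∀ s x i a t, (∀ j, 0 ≤ j → j ≤ (ρ s : ℤ) → x (i + j) = y (a + j, t)) →
        F s x i = y (a, t + s) := by
    refine ⟨fun s x i => (fun w : ℤ → A => if h : ∃ p : ℤ × ℤ, ∀ j, 0 ≤ j → j ≤ (ρ s : ℤ) →
      w j = y (p.1 + j, p.2) then y (h.choose.1, h.choose.2 + s) else w 0) fun j => x (i + j),
      fun s x => funext fun i => congrArg _ (funext fun j => congrArg x (add_right_comm _ _ _)),
      fun s x i a t h => ?_⟩
    have e : ∃ p : ℤ × ℤ, ∀ j, 0 ≤ j → j ≤ (ρ s : ℤ) → x (i + j) = y (p.1 + j, p.2) := ⟨(a, t), h⟩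
    exact (dif_pos e).trans (ha _ _ _ _ _ fun j h1 h2 => (e.choose_spec j h1 h2).symm.trans (h j h1 h2))
  have F3 : ∀ (s : ℤ) (L : ℕ) x m t, (∀ i : ℤ, -((L + ρ s : ℕ) : ℤ) ≤ i → i ≤ (L + ρ s : ℕ) →
      x i = y (i + m, t)) → ∀ i : ℤ, -(L : ℤ) ≤ i → i ≤ L → F s x i = y (i + m, t + s) :=
    fun s L x m t h i h1 h2 => F2 s x i _ _ fun j j0 j1 =>
      (h _ (by omega) (by omega)).trans (by rw [add_right_comm])
  have F4 : ∀ (n L : ℕ), ∃ L' : ℕ, ∀ x m t, (∀ i : ℤ, -(L' : ℤ) ≤ i → i ≤ L' → x i = y (i + m, t)) →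
      ∀ i : ℤ, -(L : ℤ) ≤ i → i ≤ L → (F 1)^[n] x i = y (i + m, t + n) := fun n => by
    induction n with
    | zero => exact fun L => ⟨L, by simp⟩
    | succ n ih =>
      intro L
      obtain ⟨L', h⟩ := ih (L + ρ 1)
      refine ⟨L', fun x m t hx i h1 h2 => ?_⟩
      rw [Function.iterate_succ_apply', F3 1 L _ m _ (h x m t hx) i h1 h2, Nat.cast_succ, add_assoc]
  obtain ⟨X, hX⟩ : ∃ X : Set (ℤ → A), ∀ x, x ∈ X ↔
    ∀ L : ℕ, ∃ m, ∀ i : ℤ, -(L : ℤ) ≤ i → i ≤ L → x i = y (i + m, 0) := ⟨{x | _}, fun _ => Iff.rfl⟩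
  have x0 : (fun i => y (i, 0)) ∈ X := (hX _).2 fun L => ⟨0, by simp⟩
  have sX : ∀ x ∈ X, ∀ d : ℤ, (fun i => x (i + d)) ∈ X := fun x hx d => (hX _).2 fun L => by
    obtain ⟨m, h⟩ := (hX x).1 hx (L + d.natAbs)
    exact ⟨d + m, fun i h1 h2 => (h _ (by omega) (by omega)).trans (by rw [add_assoc])⟩
  have mF : ∀ s, MapsTo (F s) X X := fun s x hx => (hX _).2 fun L => by
    obtain ⟨m, h⟩ := (hX x).1 hx (L + ρ s)
    obtain ⟨m', h'⟩ := hb (L + m.natAbs) (0 + s)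
    exact ⟨m + m', fun i h1 h2 => (F3 s L x m 0 h i h1 h2).trans
      (by rw [← add_assoc, h' _ (by omega) (by omega)])⟩
  have iF : ∀ s, ∀ x ∈ X, F (-s) (F s x) = x := fun s x hx => funext fun i => by
    obtain ⟨m, h⟩ := (hX x).1 hx (i.natAbs + ρ (-s) + ρ s)
    rw [F3 _ i.natAbs _ m _ (F3 s _ x m 0 h) i (by omega) (by omega), h i (by omega) (by omega),
      add_neg_cancel_right]
  have rF : ∀ (G : (ℤ → A) → ℤ → A) (s : ℤ), (∀ L : ℕ, ∃ L' : ℕ, ∀ x m, (∀ i : ℤ, -(L' : ℤ) ≤ i →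
      i ≤ L' → x i = y (i + m, 0)) → ∀ i : ℤ, -(L : ℤ) ≤ i → i ≤ L → G x i = y (i + m, 0 + s)) →
      HasRadius X G (ρ s) := fun G s h x hx z hz i e => by
    obtain ⟨L, hL⟩ := h i.natAbs
    obtain ⟨m, h1⟩ := (hX x).1 hx (L + i.natAbs + ρ s)
    obtain ⟨m', h2⟩ := (hX z).1 hz (L + i.natAbs + ρ s)
    rw [hL x m (fun j _ _ => h1 j (by omega) (by omega)) i (by omega) (by omega),
      hL z m' (fun j _ _ => h2 j (by omega) (by omega)) i (by omega) (by omega)]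
    refine ha _ _ _ _ _ fun j j0 j1 => ?_
    rw [add_right_comm, add_right_comm i m', ← h1 _ (by omega) (by omega),
      ← h2 _ (by omega) (by omega), e _ (by omega) (by omega)]
  have r1 := fun s => rF (F s) s fun L => ⟨_, fun x m => F3 s L x m 0⟩
  refine ⟨X, F 1, F (-1), ⟨_, x0⟩, isClosed_of_closure_subset fun x hx => (hX x).2 fun L => ?_,
    subset_antisymm (image_subset_iff.2 fun x hx => sX x hx 1) fun x hx =>
      ⟨_, sX x hx (-1), funext fun i => congrArg x (add_neg_cancel_right i 1)⟩,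
    fun Z hZ ⟨x, hx⟩ cZ mZ => hZ.antisymm fun z hz => ?_, ⟨_, x0, fun i => ?_⟩, mF 1, mF _,
    ⟨iF 1, neg_neg (1 : ℤ) ▸ iF (-1)⟩, (r1 1).cont, (r1 _).cont, fun x _ => F1 1 x, ⟨_, r1 1⟩, ⟨_, r1 _⟩,
    fun n hn => ⟨_, x0, fun h => ?_⟩,
    fun n => rF _ n fun L => (F4 n L).imp fun _ h x m => h x m 0⟩
  · obtain ⟨z, h1, h2⟩ := mem_closure_iff_nhds.1 hx _ (agree_nhds x L)
    obtain ⟨m, h⟩ := (hX z).1 h2 L
    exact ⟨m, fun i a b => (h1 i a b).symm.trans (h i a b)⟩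
  · have it : ∀ d : ℕ, (fun i => x (i + d)) ∈ Z := fun d => by
      induction d with
      | zero => simpa using hx
      | succ d ih =>
        convert mZ ih using 2
        rw [shift, Nat.cast_succ, add_right_comm, add_assoc]
    have : ∀ L : ℕ, ∃ w ∈ Z, ∀ i : ℤ, -(L : ℤ) ≤ i → i ≤ L → w i = z i := fun L => by
      obtain ⟨m, h⟩ := (hX z).1 hz L
      obtain ⟨N, N0, hN⟩ := hc (L + m.natAbs)
      obtain ⟨m', h'⟩ := (hX x).1 (hZ hx) (L + N.natAbs)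
      have a := Int.emod_nonneg (m - m') N0.ne'
      have b := Int.emod_lt_of_pos (m - m') N0
      refine ⟨_, it ((m - m') % N).toNat, fun i h1 h2 => ?_⟩
      rw [h' _ (by omega) (by omega), h i h1 h2, ← hN (-((m - m') / N)) (i + m) (by omega) (by omega),
        Int.toNat_of_nonneg a, Int.emod_def]
      congr 2
      ring
    choose w w1 w2 using this
    refine cZ.mem_of_tendsto (b := atTop) (tendsto_pi_nhds.2 fun i => tendsto_const_nhds.congr' ?_)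
      (Eventually.of_forall w1)
    filter_upwards [eventually_ge_atTop i.natAbs] with L hL
    exact (w2 L i (by omega) (by omega)).symm
  · exact (hc i.natAbs).imp fun N h => ⟨h.1, fun m => h.2 m i (by omega) (by omega)⟩
  · refine absurd (hd n fun a t => ?_) (by omega)
    have : ∀ i, y (i, n) = y (i, 0) := fun i => by
      obtain ⟨L, hL⟩ := F4 n i.natAbs
      simpa [h] using (hL (fun i => y (i, 0)) 0 0 (by simp) i (by omega) (by omega)).symm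
    simpa [add_comm] using ha t a n a 0 fun i _ _ => this _

theorem good : ∃ y : ℤ × ℤ → Cell,
    (∀ s a t b u : ℤ, (∀ i, 0 ≤ i → i ≤ ((11 * 4 ^ Nat.clog 5 s.natAbs : ℕ) : ℤ) →
      y (a + i, t) = y (b + i, u)) → y (a, t + s) = y (b, u + s)) ∧
    (∀ (L : ℕ) (s : ℤ), ∃ m, ∀ i : ℤ, -(L : ℤ) ≤ i → i ≤ L → y (i + m, 0) = y (i, s)) ∧
    (∀ L : ℕ, ∃ N : ℤ, 0 < N ∧ ∀ m i : ℤ, -(L : ℤ) ≤ i → i ≤ L → y (i + m * N, 0) = y (i, 0)) ∧
    ∀ n : ℕ, (∀ a t, y (a, t + n) = y (a, t)) → n = 0 := by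
  obtain ⟨y, h1, h2⟩ := exists_y
  refine ⟨y, fun s a t b u h => ?_, fun L s => ?_, fun L => ?_, fun n h => ?_⟩
  · have p : ((s.natAbs : ℕ) : ℤ) ≤ 5 ^ Nat.clog 5 s.natAbs := by
      exact_mod_cast Nat.le_pow_clog (by norm_num) _
    push_cast at h
    have := rad _ y (h1 (Nat.clog 5 s.natAbs)) _ (YY_sh (h1 _) (b - a, u - t)) a t (fun x x0 x1 => by
      have := h (x - a) (by omega) (by omega)
      rw [add_sub_cancel] at this
      exact this.trans (congrArg y (Prod.ext (by simp only [Prod.fst_add]; ring) (by simp))))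
      (t + s) (by omega) (by omega)
    exact this.trans (congrArg y (Prod.ext (by simp) (by simp only [Prod.snd_add]; ring)))
  · obtain ⟨k, hk⟩ := h2 (L + 1) s.natAbs
    obtain ⟨a, ⟨c, d, e⟩, ha⟩ := MM_iter k
    refine ⟨2 ^ k * (c * s), fun i i0 i1 => ?_⟩
    rw [← hk (c * s, -(d * s)) i s (by omega) (by omega) (by omega) (by omega), ha, Prod.mk_add_mk]
    congr 2
    linear_combination s * e
  · obtain ⟨k, hk⟩ := h2 (L + 1) 0
    obtain ⟨a, -, ha⟩ := MM_iter k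
    refine ⟨2 ^ k * 5 ^ k, by positivity, fun m i i0 i1 => ?_⟩
    rw [← hk (m * 5 ^ k, m * a) i 0 (by omega) (by omega) (by omega) (by omega), ha, Prod.mk_add_mk]
    congr 2 <;> ring
  · have := per n y (h1 n) n (funext fun ⟨a, t⟩ => by simpa [sh] using h a t)
    exact Nat.eq_zero_of_dvd_of_lt (by exact_mod_cast this) (Nat.lt_pow_self (by norm_num : 1 < 5))

theorem bound (n : ℕ) (hn : 1 ≤ n) :
    ((11 * 4 ^ Nat.clog 5 n : ℕ) : ℝ) ≤ 44 * (n : ℝ) ^ (7 / 8 : ℝ) := by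
  have one : (1 : ℝ) ≤ (n : ℝ) ^ (7 / 8 : ℝ) := Real.one_le_rpow (by exact_mod_cast hn) (by norm_num)
  rcases h : Nat.clog 5 n with _ | k
  · push_cast
    linarith
  have a : ((5 : ℝ) ^ k) ≤ n := by
    exact_mod_cast (Nat.pow_lt_of_lt_clog (b := 5) (x := n) (y := k) (by omega)).le
  have b : (4 : ℝ) ≤ 5 ^ (7 / 8 : ℝ) := by
    rw [show (7 / 8 : ℝ) = (7 : ℕ) * (8 : ℝ)⁻¹ by norm_num, Real.rpow_natCast_mul (by norm_num),
      Real.le_rpow_inv_iff_of_pos (by norm_num) (by norm_num) (by norm_num)]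
    norm_num
  have c : (4 : ℝ) ^ k ≤ (n : ℝ) ^ (7 / 8 : ℝ) :=
    calc (4 : ℝ) ^ k ≤ (5 ^ (7 / 8 : ℝ)) ^ k := by gcongr
      _ = (5 ^ k) ^ (7 / 8 : ℝ) := by rw [← Real.rpow_mul_natCast (by norm_num), mul_comm,
          Real.rpow_natCast_mul (by norm_num)]
      _ ≤ _ := by gcongr
  push_cast
  rw [pow_succ]
  linarith

end Pool.Agent.MP_88e1ca_an.Min
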