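import Mathlib

/-! A skewed self-simulation with space factor 2 and time factor 5. -/

set_option autoImplicit false

namespace Pool.Agent.MP_88e1ca_an.Min

/-- clock, two buffer bits, type -/
abbrev Sym := Fin 5 × Bool × Bool × Bool

/-- a flag and a symbol -/
abbrev Cell := Bool × Sym

/-- the command sent to the left neighbour -/
def cmd (s : Sym) : Bool × Bool :=
  if s.2.2.2 then (if s.1 = 0 then (s.2.1, s.2.2.1) else (false, false))
  else (if s.1 = 2 then (s.2.1, false) else if s.1 = 3 then (false, s.2.2.1)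
    else if s.1 = 4 then (true, true) else (false, false))

/-- reading phases -/
def rd (s : Sym) : Bool :=
  if s.2.2.2 then (decide (s.1 = 0) || decide (s.1 = 4)) else (decide (s.1 = 1) || decide (s.1 = 3))

/-- action of a command -/
def act (c : Bool × Bool) (s : Sym) : Sym :=
  if c.1 then (if c.2 then (s.1 + 1, s.2) else (s.1, xor s.2.1 (rd s), s.2.2))
  else (if c.2 then (s.1, s.2.1, xor s.2.2.1 (rd s), s.2.2.2) else s)

/-- one step of a flagged cell -/
def step (c : Bool × Bool) (s : Sym) : Sym :=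
  act (true, true) (act (false, c.2) (act (c.1, false) s))

theorem act_inj : ∀ (c : Bool × Bool) (s s' : Sym), act c s = act c s' → s = s' := by decide +kernel

theorem step_inj (c : Bool × Bool) (s s' : Sym) (h : step c s = step c s') : s = s' :=
  act_inj _ _ _ (act_inj _ _ _ (act_inj _ _ _ h))

/-- space-time diagrams with alternating flags -/
def Dia (y : ℤ × ℤ → Cell) : Prop := ∀ x t, (y (x + 1, t)).1 = !(y (x, t)).1 ∧
  y (x, t + 1) = if (y (x, t)).1 then (true, step (cmd (y (x + 1, t + 1)).2) (y (x, t)).2)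
    else (false, act (cmd (y (x + 1, t)).2) (y (x, t)).2)

theorem Dia.flag {y : ℤ × ℤ → Cell} (h : Dia y) (x t : ℤ) : (y (x, t + 1)).1 = (y (x, t)).1 := by
  rw [(h x t).2]
  split_ifs with e <;> simp [e]

/-- buffer cell -/
def cM (φ : ℤ) (a b : Cell) : Cell :=
  if a.1 then (true, ⟨(φ % 5).toNat, by omega⟩, if φ = 0 then (cmd b.2).1 else false,
      if φ = 0 then (cmd b.2).2 else false, true)
  else (true, ⟨(φ % 5).toNat, by omega⟩, if φ = 2 ∨ φ = 3 then (cmd a.2).1 else false,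
      if φ = 2 ∨ φ = 3 then (cmd a.2).2 else false, false)

/-- data cell -/
def cA (φ : ℤ) (a b c : Cell) : Cell :=
  (false, if a.1 then (if φ = 4 then a.2 else if φ = 3 then
    act (false, (cmd c.2).2) (act ((cmd c.2).1, false) b.2) else if φ = 2 then
    act ((cmd c.2).1, false) b.2 else b.2) else a.2)

/-- the substitution -/
def St (y : ℤ × ℤ → Cell) (p : ℤ × ℤ) : Cell :=
  if p.1 % 2 = 0 then cM ((p.2 + p.1 / 2) % 5) (y (p.1 / 2, (p.2 + p.1 / 2) / 5))
    (y (p.1 / 2, (p.2 + p.1 / 2) / 5 - 1))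
  else cA ((p.2 + p.1 / 2) % 5) (y (p.1 / 2, (p.2 + p.1 / 2) / 5))
    (y (p.1 / 2, (p.2 + p.1 / 2) / 5 - 1)) (y (p.1 / 2 + 1, (p.2 + p.1 / 2) / 5))

theorem St_M (y : ℤ × ℤ → Cell) {x t : ℤ} (j u φ : ℤ) (h0 : 0 ≤ φ) (h1 : φ < 5) (hx : x = 2 * j)
    (ht : t + j = 5 * u + φ) : St y (x, t) = cM φ (y (j, u)) (y (j, u - 1)) := by
  have a : x / 2 = j := by omega
  have b : (t + j) % 5 = φ := by omega
  have c : (t + j) / 5 = u := by omega
  simp only [St, a, b, c, if_pos (show x % 2 = 0 by omega)]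

theorem St_A (y : ℤ × ℤ → Cell) {x t : ℤ} (j u φ : ℤ) (h0 : 0 ≤ φ) (h1 : φ < 5)
    (hx : x = 2 * j + 1) (ht : t + j = 5 * u + φ) :
    St y (x, t) = cA φ (y (j, u)) (y (j, u - 1)) (y (j + 1, u)) := by
  have a : x / 2 = j := by omega
  have b : (t + j) % 5 = φ := by omega
  have c : (t + j) / 5 = u := by omega
  simp only [St, a, b, c, if_neg (show ¬ x % 2 = 0 by omega)]

theorem St_flag (y : ℤ × ℤ → Cell) (x t : ℤ) : (St y (x, t)).1 = decide (x % 2 = 0) := by
  simp only [St, cM, cA]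
  split_ifs <;> simp [*]

theorem cases5 (x t : ℤ) : ∃ j u φ : ℤ, (x = 2 * j ∨ x = 2 * j + 1) ∧ t + j = 5 * u + φ ∧
    0 ≤ φ ∧ φ < 5 :=
  ⟨x / 2, (t + x / 2) / 5, (t + x / 2) % 5, by omega, by omega, by omega, by omega⟩

theorem cmd_cM (φ : ℤ) (h0 : 0 ≤ φ) (h1 : φ < 5) (a b : Cell) : cmd (cM φ a b).2 =
    if a.1 then (if φ = 0 then cmd b.2 else (false, false)) else if φ = 2 then ((cmd a.2).1, false)
    else if φ = 3 then (false, (cmd a.2).2) else if φ = 4 then (true, true) else (false, false) := by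
  obtain rfl | rfl | rfl | rfl | rfl : φ = 0 ∨ φ = 1 ∨ φ = 2 ∨ φ = 3 ∨ φ = 4 := by omega
  all_goals unfold cM; cases a.1 <;> rfl

theorem act_zero (s : Sym) : act (false, false) s = s := rfl

theorem St_dia {y : ℤ × ℤ → Cell} (h : Dia y) : Dia (St y) := by
  intro x t
  refine ⟨by rw [St_flag, St_flag]; by_cases x % 2 = 0 <;> simp [*] <;> omega, ?_⟩
  obtain ⟨j, u, φ, hx, ht, h0, h1⟩ := cases5 x t
  have f1 := h.flag j u
  have f2 := h.flag j (u - 1)
  have f3 := (h j u).1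
  have f4 := h.flag (j + 1) u
  have r1 := (h j u).2
  have r2 := (h j (u - 1)).2
  rw [sub_add_cancel] at f2 r2
  rcases hx with hx | hx
  · rw [St_M y j u φ h0 h1 hx ht]
    by_cases e : φ = 4
    · rw [St_M y j (u + 1) 0 le_rfl (by omega) hx (by omega),
        St_A y j (u + 1) 0 le_rfl (by omega) (by omega) (by omega), add_sub_cancel_right, e]
      cases q : (y (j, u)).1 <;> simp [cM, cA, f1, q] <;> generalize cmd _ = c <;> revert c <;>
        decide
    · rw [St_M y j u (φ + 1) (by omega) (by omega) hx (by omega),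
        St_A y j u (φ + 1) (by omega) (by omega) (by omega) (by omega)]
      obtain rfl | rfl | rfl | rfl : φ = 0 ∨ φ = 1 ∨ φ = 2 ∨ φ = 3 := by omega
      all_goals cases q : (y (j, u)).1 <;> simp [cM, cA, q] <;> generalize cmd _ = c <;>
        (revert c; decide)
  · rw [St_A y j u φ h0 h1 hx ht]
    by_cases e : φ = 4
    · rw [St_A y j (u + 1) 0 le_rfl (by omega) hx (by omega),
        St_M y (t := t) (j + 1) (u + 1) 0 le_rfl (by omega) (by omega) (by omega),
        cmd_cM _ le_rfl (by omega), add_sub_cancel_right, e]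
      cases q : (y (j, u)).1 <;> simp [cA, f3, f4, q, r1, act_zero]
    · rw [St_A y j u (φ + 1) (by omega) (by omega) hx (by omega),
        St_M y (t := t) (j + 1) u (φ + 1) (by omega) (by omega) (by omega) (by omega),
        cmd_cM _ (by omega) (by omega)]
      obtain rfl | rfl | rfl | rfl : φ = 0 ∨ φ = 1 ∨ φ = 2 ∨ φ = 3 := by omega
      all_goals cases q : (y (j, u)).1 <;> simp [cA, q, f3, act_zero]
      rw [r2, ← f2, q]
      rfl

/-- translation -/
def sh (g : ℤ × ℤ) (y : ℤ × ℤ → Cell) : ℤ × ℤ → Cell := fun p => y (p + g)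

/-- the lattice of blocks -/
def MM (v : ℤ × ℤ) : ℤ × ℤ := (2 * v.1, 5 * v.2 - v.1)

theorem sh_sh (g h : ℤ × ℤ) (y : ℤ × ℤ → Cell) : sh g (sh h y) = sh (g + h) y :=
  funext fun p => congrArg y (add_assoc p g h)

theorem St_sh (v : ℤ × ℤ) (y : ℤ × ℤ → Cell) : St (sh v y) = sh (MM v) (St y) := by
  funext ⟨x, t⟩
  obtain ⟨j, u, φ, hx, ht, h0, h1⟩ := cases5 x t
  change _ = St y (x + 2 * v.1, t + (5 * v.2 - v.1))
  rcases hx with hx | hx
  · rw [St_M _ j u φ h0 h1 hx ht, St_M y (j + v.1) (u + v.2) φ h0 h1 (by omega) (by omega),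
      add_sub_right_comm]
    rfl
  · rw [St_A _ j u φ h0 h1 hx ht, St_A y (j + v.1) (u + v.2) φ h0 h1 (by omega) (by omega),
      add_sub_right_comm, add_right_comm]
    rfl

theorem Dia.sh {y : ℤ × ℤ → Cell} (h : Dia y) (g : ℤ × ℤ) : Dia (sh g y) := fun x t => by
  have := h (x + g.1) (t + g.2)
  rw [add_right_comm x, add_right_comm t] at this
  exact this

/-- diagrams with `k` levels of structure -/
def YY : ℕ → Set (ℤ × ℤ → Cell)
  | 0 => {y | Dia y}
  | k + 1 => {y | ∃ z ∈ YY k, ∃ g, y = sh g (St z)}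

theorem YY_sh {k : ℕ} {y : ℤ × ℤ → Cell} (h : y ∈ YY k) (g : ℤ × ℤ) : sh g y ∈ YY k := by
  cases k with
  | zero => exact Dia.sh h g
  | succ k =>
    obtain ⟨z, hz, g', rfl⟩ := h
    exact ⟨z, hz, _, sh_sh _ _ _⟩

theorem YY_dia {k : ℕ} : ∀ {y : ℤ × ℤ → Cell}, y ∈ YY k → Dia y := by
  induction k with
  | zero => exact id
  | succ k ih =>
    rintro _ ⟨z, hz, g, rfl⟩
    exact (St_dia (ih hz)).sh g

theorem fwd {y z : ℤ × ℤ → Cell} (hy : Dia y) (hz : Dia z) (x t : ℤ) (e0 : y (x, t) = z (x, t))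
    (e1 : y (x + 1, t) = z (x + 1, t)) (e2 : y (x + 1 + 1, t) = z (x + 1 + 1, t)) :
    y (x, t + 1) = z (x, t + 1) := by
  rw [(hy x t).2, (hz x t).2, e0, e1]
  split_ifs with h
  · rw [(hy _ t).2, (hz _ t).2, e1, e2, (hz x t).1, h]
    rfl
  · rfl

theorem bwd {y z : ℤ × ℤ → Cell} (hy : Dia y) (hz : Dia z) (x t : ℤ)
    (e0 : y (x, t + 1) = z (x, t + 1)) (e1 : y (x + 1, t + 1) = z (x + 1, t + 1))
    (e2 : y (x + 1 + 1, t + 1) = z (x + 1 + 1, t + 1)) : y (x, t) = z (x, t) := by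
  have f : ∀ x, y (x, t + 1) = z (x, t + 1) → (y (x, t)).1 = (z (x, t)).1 := fun x e => by
    rw [← hy.flag, ← hz.flag, e]
  have k : ∀ x, (z (x, t)).1 = true → y (x, t + 1) = z (x, t + 1) →
      y (x + 1, t + 1) = z (x + 1, t + 1) → y (x, t) = z (x, t) := fun x h a b => by
    have := f x a
    rw [(hy x t).2, (hz x t).2, this, if_pos h, if_pos h, b] at a
    exact Prod.ext this (step_inj _ _ _ (Prod.ext_iff.1 a).2)
  by_cases h : (z (x, t)).1 = true
  · exact k x h e0 e1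
  · have := f x e0
    rw [(hy x t).2, (hz x t).2, this, if_neg h, if_neg h,
      k (x + 1) (by rw [(hz x t).1]; simpa using h) e1 e2] at e0
    exact Prod.ext this (act_inj _ _ _ (Prod.ext_iff.1 e0).2)

theorem tri {y z : ℤ × ℤ → Cell} (hy : Dia y) (hz : Dia z) (a b s : ℤ)
    (h : ∀ x, a ≤ x → x ≤ b → y (x, s) = z (x, s)) (n : ℕ) :
    ∀ x t, a ≤ x → x + 2 * n ≤ b → s - n ≤ t → t ≤ s + n → y (x, t) = z (x, t) := by
  induction n with
  | zero => exact fun x t h1 h2 h3 h4 => (by omega : s = t) ▸ h x h1 (by omega)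
  | succ n ih =>
    intro x t h1 h2 h3 h4
    rcases lt_trichotomy t s with e | rfl | e
    · exact bwd hy hz x t (ih _ _ h1 (by omega) (by omega) (by omega))
        (ih _ _ (by omega) (by omega) (by omega) (by omega))
        (ih _ _ (by omega) (by omega) (by omega) (by omega))
    · exact h x h1 (by omega)
    · rw [← sub_add_cancel t 1]
      exact fwd hy hz x _ (ih _ _ h1 (by omega) (by omega) (by omega))
        (ih _ _ (by omega) (by omega) (by omega) (by omega))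
        (ih _ _ (by omega) (by omega) (by omega) (by omega))

theorem St_clock (y : ℤ × ℤ → Cell) (x t : ℤ) (hx : x % 2 = 0) :
    ((St y (x, t)).2.1 : ℕ) = ((t + x / 2) % 5 % 5).toNat := by
  simp only [St, cM, if_pos hx]
  split_ifs <;> rfl

theorem recog (y z : ℤ × ℤ → Cell) (g : ℤ × ℤ) (a t : ℤ) (e0 : St y (a, t) = St z ((a, t) + g))
    (e1 : St y (a + 1, t) = St z ((a + 1, t) + g)) : ∃ v, g = MM v := by
  obtain ⟨c, d⟩ := g
  have f := congrArg Prod.fst e0
  rw [Prod.mk_add_mk, St_flag, St_flag, decide_eq_decide] at f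
  refine ⟨(c / 2, (d + c / 2) / 5), Prod.ext (by simp only [MM]; omega) ?_⟩
  simp only [MM]
  by_cases h : a % 2 = 0
  · have := St_clock y a t h
    rw [e0, Prod.mk_add_mk, St_clock _ _ _ (by omega)] at this
    omega
  · have := St_clock y (a + 1) t (by omega)
    rw [e1, Prod.mk_add_mk, St_clock _ _ _ (by omega)] at this
    omega

theorem decode {y z : ℤ × ℤ → Cell} (hy : Dia y) (hz : Dia z) (j u : ℤ)
    (e0 : St y (2 * j + 1, 5 * u + 4 - j) = St z (2 * j + 1, 5 * u + 4 - j))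
    (e1 : St y (2 * j + 2, 5 * u + 4 - j) = St z (2 * j + 2, 5 * u + 4 - j)) :
    y (j, u) = z (j, u) := by
  rw [St_A y j u 4 (by omega) (by omega) rfl (by omega),
    St_A z j u 4 (by omega) (by omega) rfl (by omega)] at e0
  rw [St_M y (j + 1) (u + 1) 0 (by omega) (by omega) (by omega) (by omega),
    St_M z (j + 1) (u + 1) 0 (by omega) (by omega) (by omega) (by omega)] at e1
  simp only [cM, hy.flag, hz.flag, (hy j u).1, (hz j u).1] at e1
  refine Prod.ext ?_ (by simpa [cA] using e0)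
  cases a : (y (j, u)).1 <;> cases b : (z (j, u)).1 <;> simp [a, b] at e1 ⊢

theorem St_eq (y z : ℤ × ℤ → Cell) (F : ℤ → Prop) (hf : ∀ x t, (z (x, t)).1 = true → F x) (x t : ℤ)
    (h : ∀ j u, (j = x / 2 ∨ (j = x / 2 + 1 ∧ x % 2 = 1 ∧ F (x / 2))) →
      (u = (t + x / 2) / 5 ∨ (u = (t + x / 2) / 5 - 1 ∧ F (x / 2))) → y (j, u) = z (j, u)) :
    St y (x, t) = St z (x, t) := by
  simp only [St, h _ _ (.inl rfl) (.inl rfl)]
  by_cases q : (z (x / 2, (t + x / 2) / 5)).1 = true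
  · rw [h _ _ (.inl rfl) (.inr ⟨rfl, hf _ _ q⟩)]
    split_ifs with e
    · rfl
    · rw [h _ _ (.inr ⟨rfl, by omega, hf _ _ q⟩) (.inl rfl)]
  · simp only [cM, cA, if_neg q]

theorem rad (k : ℕ) : ∀ y ∈ YY k, ∀ z ∈ YY k, ∀ a s : ℤ,
    (∀ x, a ≤ x → x ≤ a + (11 * 4 ^ k - 5) → y (x, s) = z (x, s)) →
    ∀ t, s - (5 ^ k + 2) ≤ t → t ≤ s + (5 ^ k + 2) → y (a, t) = z (a, t) := by
  induction k with
  | zero =>
    exact fun y hy z hz a s h t h1 h2 =>
      tri hy hz a _ s h 3 a t le_rfl (by omega) (by omega) (by omega)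
  | succ k ih =>
    have key : ∀ y ∈ YY k, ∀ z ∈ YY k, ∀ a s : ℤ,
        (∀ x, a ≤ x → x ≤ a + (11 * 4 ^ (k + 1) - 5) → St y (x, s) = St z (x, s)) →
        ∀ t, s - (5 ^ (k + 1) + 2) ≤ t → t ≤ s + (5 ^ (k + 1) + 2) → St y (a, t) = St z (a, t) := by
      intro y hy z hz a s h t h1 h2
      rw [pow_succ] at h h1 h2
      have d : ∀ j, a / 2 ≤ j → j ≤ a / 2 + 1 + (11 * 4 ^ k - 5) →
          y (j, (s + a / 2) / 5) = z (j, (s + a / 2) / 5) := fun j j0 j1 => by
        have := tri (St_dia (YY_dia hy)) (St_dia (YY_dia hz)) a _ s h (j - a / 2 + 4).toNat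
        exact decode (YY_dia hy) (YY_dia hz) _ _
          (this _ _ (by omega) (by omega) (by omega) (by omega))
          (this _ _ (by omega) (by omega) (by omega) (by omega))
      exact St_eq y z (fun _ => True) (fun _ _ _ => trivial) a t fun j u hj hu =>
        ih y hy z hz j _ (fun x x0 x1 => d x (by omega) (by omega)) u (by omega) (by omega)
    rintro _ ⟨y, hy, g, rfl⟩ _ ⟨z, hz, g', rfl⟩ a s h t h1 h2
    have p : (0 : ℤ) < 4 ^ (k + 1) := by positivity
    have e : ∀ p : ℤ × ℤ, sh g' (St z) p = St z (p + g + (g' - g)) := fun p => by simp [sh]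
    obtain ⟨v, hv⟩ := recog y z (g' - g) (a + g.1) (s + g.2)
      ((h a le_rfl (by omega)).trans (e _)) (by
        rw [add_right_comm]
        exact (h (a + 1) (by omega) (by omega)).trans (e _))
    have e' : ∀ p : ℤ × ℤ, sh g' (St z) p = St (sh v z) (p + g) := fun p => by
      rw [e, hv, St_sh]
      rfl
    rw [e']
    refine key y hy _ (YY_sh hz v) (a + g.1) (s + g.2) (fun x x0 x1 => ?_) (t + g.2)
      (by omega) (by omega)
    have := (h (x - g.1) (by omega) (by omega)).trans (e' _)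
    rw [← sub_add_cancel x g.1]
    exact this

theorem per (k : ℕ) : ∀ y ∈ YY k, ∀ n : ℤ, sh (0, n) y = y → 5 ^ k ∣ n := by
  induction k with
  | zero => simp
  | succ k ih =>
    rintro _ ⟨y, hy, g, rfl⟩ n h
    have e : sh (0, n) (St y) = St y := by
      have := congrArg (sh (-g)) h
      rw [sh_sh, sh_sh, sh_sh, neg_add_cancel, show -g + (0, n) + g = (0, n) by abel] at this
      exact this.trans (funext fun p => congrArg _ (add_zero p))
    obtain ⟨⟨c, d⟩, hv⟩ := recog y y (0, n) 0 0 (congrFun e _).symm (congrFun e _).symm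
    rw [hv, ← St_sh] at e
    simp only [MM, Prod.mk.injEq] at hv
    obtain rfl : c = 0 := by omega
    rw [hv.2, sub_zero, pow_succ']
    exact mul_dvd_mul_left 5 (ih y hy d (funext fun ⟨j, u⟩ =>
      decode ((YY_dia hy).sh _) (YY_dia hy) j u (congrFun e _) (congrFun e _)))

/-- two levels of the substitution with fixed digits -/
def Ph (y : ℤ × ℤ → Cell) : ℤ × ℤ → Cell := sh (0, 5) (St (sh (-1, 2) (St y)))

theorem Ph_YY {k : ℕ} {y : ℤ × ℤ → Cell} (h : y ∈ YY k) : Ph y ∈ YY (k + 2) :=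
  ⟨_, ⟨y, h, _, rfl⟩, _, rfl⟩

theorem Ph_dia {y : ℤ × ℤ → Cell} (h : Dia y) (k : ℕ) : Dia (Ph^[k] y) := by
  induction k with
  | zero => exact h
  | succ k ih => exact Function.iterate_succ_apply' Ph k y ▸ YY_dia (Ph_YY (k := 0) ih)

theorem Ph_flag (y : ℤ × ℤ → Cell) (x t : ℤ) (h : (Ph y (x, t)).1 = true) : x % 2 = 0 := by
  simpa [Ph, sh, St_flag] using h

theorem Ph_eq (y z : ℤ × ℤ → Cell) (hf : ∀ x t, (z (x, t)).1 = true → x % 2 = 0) (x t m n : ℤ)
    (h : ∀ j u, -m ≤ j + 1 → j + 1 ≤ m → -n ≤ u → u ≤ n → y (j, u) = z (j, u))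
    (c : (0 ≤ m ∧ -(m + 1) ≤ x + 1 ∧ x + 1 ≤ m + 1 ∧ -(n - m - 6) ≤ t ∧ t ≤ n - m - 6) ∨
      (m = 0 ∧ 0 ≤ n ∧ x = -1 ∧ -(n + 1) ≤ t ∧ t ≤ n + 1)) : Ph y (x, t) = Ph z (x, t) := by
  refine St_eq _ _ (fun x => x % 2 = 1) (fun x t h => ?_) (x + 0) (t + 5) fun j u hj hu =>
    St_eq y z (fun x => x % 2 = 0) hf (j + -1) (u + 2) fun j' u' hj' hu' =>
      h j' u' (by omega) (by omega) (by omega) (by omega)
  simp only [sh, Prod.mk_add_mk, St_flag, decide_eq_true_eq] at h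
  omega

theorem Ph_base (y z : ℤ × ℤ → Cell) : Ph (Ph y) (-1, 0) = Ph (Ph z) (-1, 0) := by
  have f : ∀ w, ¬ (Ph w (-1, 0)).1 = true := fun w h => by simpa using Ph_flag w _ _ h
  have g : ∀ w, Ph w (-1, 0) = (false, (cM 1 (w (-1, 0)) (w (-1, 0 - 1))).2) := fun w => by
    rw [← St_M w (x := -1 + -1) (t := 0 + 2) (-1) 0 1 (by omega) (by omega) (by omega) (by omega)]
    refine (St_A _ (x := -1 + 0) (t := 0 + 5) (-1) 0 4 (by omega) (by omega) (by omega)
      (by omega)).trans ?_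
    simp only [cA, if_true, ite_self]
    rfl
  rw [g, g (Ph z), cM, cM, if_neg (f y), if_neg (f z)]
  rfl

theorem reg (m : ℕ) : ∀ n : ℕ, ∃ k, ∀ y z : ℤ × ℤ → Cell, ∀ x t : ℤ, -(m : ℤ) ≤ x + 1 → x + 1 ≤ m →
    -(n : ℤ) ≤ t → t ≤ n → Ph^[k + 1] y (x, t) = Ph^[k + 1] z (x, t) := by
  have f : ∀ k z x t, (Ph^[k + 1] z (x, t)).1 = true → x % 2 = 0 := fun k z x t h =>
    Ph_flag _ x t (Function.iterate_succ_apply' Ph k z ▸ h)
  induction m with
  | zero =>
    intro n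
    induction n with
    | zero =>
      refine ⟨1, fun y z x t h1 h2 h3 h4 => ?_⟩
      obtain rfl : x = -1 := by omega
      obtain rfl : t = 0 := by omega
      exact Ph_base y z
    | succ n ih =>
      obtain ⟨k, hk⟩ := ih
      refine ⟨k + 1, fun y z x t h1 h2 h3 h4 => ?_⟩
      rw [Function.iterate_succ_apply', Function.iterate_succ_apply' (n := k + 1)]
      exact Ph_eq _ _ (f k z) x t _ _ (hk y z) (by omega)
  | succ m ih =>
    intro n
    obtain ⟨k, hk⟩ := ih (n + m + 6)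
    refine ⟨k + 1, fun y z x t h1 h2 h3 h4 => ?_⟩
    rw [Function.iterate_succ_apply', Function.iterate_succ_apply' (n := k + 1)]
    exact Ph_eq _ _ (f k z) x t _ _ (hk y z) (by omega)

theorem MM_iter (k : ℕ) : ∃ a : ℤ, IsCoprime a (5 ^ k) ∧
    ∀ j u, MM^[k] (j, u) = (2 ^ k * j, 5 ^ k * u - a * j) := by
  induction k with
  | zero => exact ⟨0, by simpa using isCoprime_one_right, by simp⟩
  | succ k ih =>
    obtain ⟨a, -, h⟩ := ih
    refine ⟨2 ^ k + 5 * a, (IsCoprime.add_mul_left_left (IsCoprime.pow_left (by norm_num)) a).pow_right,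
      fun j u => ?_⟩
    rw [Function.iterate_succ_apply', h]
    exact Prod.ext (by simp only [MM]; ring) (by simp only [MM]; ring)

theorem Ph_sh (k : ℕ) : ∀ (v : ℤ × ℤ) (y : ℤ × ℤ → Cell),
    Ph^[k] (sh v y) = sh (MM^[2 * k] v) (Ph^[k] y) := by
  induction k with
  | zero => exact fun _ _ => rfl
  | succ k ih =>
    intro v y
    have : Ph (sh v y) = sh (MM (MM v)) (Ph y) := by
      rw [Ph, Ph, St_sh v, sh_sh, add_comm, ← sh_sh, St_sh (MM v), sh_sh, add_comm, ← sh_sh]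
    rw [Function.iterate_succ_apply, this, ih]
    rfl

/-- the Toeplitz diagram -/
theorem exists_y : ∃ y : ℤ × ℤ → Cell, (∀ k, y ∈ YY k) ∧ ∀ m n : ℕ, ∃ k, ∀ (v : ℤ × ℤ) (x t : ℤ),
    -(m : ℤ) ≤ x + 1 → x + 1 ≤ m → -(n : ℤ) ≤ t → t ≤ n → y ((x, t) + MM^[k] v) = y (x, t) := by
  obtain ⟨y₀, h₀⟩ : ∃ y, Dia y := by
    refine ⟨fun p => if p.1 % 2 = 0 then (true, ⟨(p.2 % 5).toNat, by omega⟩, false, false, true)
      else (false, 0, false, false, true), fun x t => ?_⟩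
    by_cases h : x % 2 = 0
    · simp only [if_pos h, if_neg (show ¬ (x + 1) % 2 = 0 by omega), if_true]
      refine ⟨rfl, Prod.ext rfl (Prod.ext (Fin.ext ?_) rfl)⟩
      change _ = ((t % 5).toNat + 1) % 5
      dsimp only
      omega
    · simp only [if_neg h, if_pos (show (x + 1) % 2 = 0 by omega)]
      simp [cmd, act]
  choose K hK using reg
  have up : ∀ m n k, K m n + 1 ≤ k → ∀ y z : ℤ × ℤ → Cell, ∀ x t : ℤ, -(m : ℤ) ≤ x + 1 →
      x + 1 ≤ m → -(n : ℤ) ≤ t → t ≤ n → Ph^[k] y (x, t) = Ph^[K m n + 1] z (x, t) :=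
    fun m n k hk y z => by
      obtain ⟨d, rfl⟩ := Nat.exists_eq_add_of_le hk
      rw [Function.iterate_add_apply]
      exact hK m n _ z
  obtain ⟨y, hy⟩ : ∃ y : ℤ × ℤ → Cell, ∀ m n : ℕ, ∀ k, K m n + 1 ≤ k → ∀ z, ∀ x t : ℤ,
      -(m : ℤ) ≤ x + 1 → x + 1 ≤ m → -(n : ℤ) ≤ t → t ≤ n → y (x, t) = Ph^[k] z (x, t) :=
    ⟨fun p => Ph^[K (p.1 + 1).natAbs p.2.natAbs + 1] y₀ p, fun m n k hk z x t h1 h2 h3 h4 =>
      (up _ _ _ (le_max_left _ (K m n + 1)) z y₀ x t (by omega) (by omega) (by omega)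
        (by omega)).symm.trans ((up m n _ (le_max_right _ _) z z x t h1 h2 h3 h4).trans
          (up m n k hk z z x t h1 h2 h3 h4).symm)⟩
  have fix : Ph y = y := funext fun ⟨x, t⟩ => by
    obtain ⟨k, k1, k2⟩ : ∃ k, K (x + 1).natAbs (t.natAbs + (x + 1).natAbs + 6) + 1 ≤ k + 1 ∧
      K (x + 1).natAbs t.natAbs + 1 ≤ k + 1 + 1 := 
        ⟨max _ _, Nat.succ_le_succ (le_max_left _ _),
          Nat.le_succ_of_le (Nat.succ_le_succ (le_max_right _ _))⟩
    rw [hy _ _ _ k2 y₀ x t (by omega) (by omega) (by omega) (by omega), Function.iterate_succ_apply']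
    exact Ph_eq _ _ (fun x t h => Ph_flag _ x t (Function.iterate_succ_apply' Ph k y₀ ▸ h)) x t _ _
      (hy _ _ _ k1 y₀) (by omega)
  have d : Dia y := fun x t => by
    have := hy (x.natAbs + 2) (t.natAbs + 1) _ le_rfl y₀
    rw [this x t, this (x + 1) t, this x (t + 1), this (x + 1) (t + 1)] <;> try omega
    exact Ph_dia h₀ _ x t
  refine ⟨y, fun k => ?_, fun m n => ⟨2 * (K m n + 1), fun v x t h1 h2 h3 h4 => ?_⟩⟩
  · induction k using Nat.twoStepInduction with
    | zero => exact d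
    | one => exact fix ▸ ⟨_, (St_dia d).sh _, _, rfl⟩
    | more k h _ => exact fix ▸ Ph_YY h
  · rw [hy m n _ le_rfl (sh v y) x t h1 h2 h3 h4, Ph_sh, Function.iterate_fixed fix]
    rfl

end Pool.Agent.MP_88e1ca_an.Min
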